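import Mathlib

set_option autoImplicit false

/-!
# Matchings do not have property (P)

Let `F` be a graph with at least one edge and maximum degree one. An orientation of a graph `H` contains a given
orientation of `F` iff `H` contains `F`. So the number of orientations of `H` without it is `2 ^ e(H)` if `H` does not
contain `F`, and `0` otherwise, and the extremal graphs of both kinds are the same.
-/

namespace Pool.Agent.Results.MP_0a9719_co.Matchings

open Finset

/-- `D` is an orientation of the graph `H`. -/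
def IsOrientation {V : Type} (H : SimpleGraph V) (D : V → V → Prop) : Prop :=
  (∀ u v, D u v → H.Adj u v) ∧ ∀ u v, H.Adj u v → (D u v ↔ ¬ D v u)

/-- The oriented graph `D` contains a copy of the oriented graph `A`. -/
def Contains {V W : Type} (D : V → V → Prop) (A : W → W → Prop) : Prop :=
  ∃ f : W → V, Function.Injective f ∧ ∀ a b, A a b → D (f a) (f b)

/-- The number of the orientations of `H` that do not contain `A`. -/
noncomputable def count {V W : Type} (A : W → W → Prop) (H : SimpleGraph V) : ℕ :=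
  {D : V → V → Prop | IsOrientation H D ∧ ¬ Contains D A}.ncard

/-- `H` is `A`-extremal: it has the largest number of orientations without `A`. -/
def OExtremal {n : ℕ} {W : Type} (A : W → W → Prop) (H : SimpleGraph (Fin n)) : Prop :=
  ∀ H' : SimpleGraph (Fin n), count A H' ≤ count A H

/-- `H` does not contain `F`. -/
def FreeOf {V W : Type} (F : SimpleGraph W) (H : SimpleGraph V) : Prop :=
  ¬ ∃ f : W → V, Function.Injective f ∧ ∀ a b, F.Adj a b → H.Adj (f a) (f b)

/-- `H` is `F`-extremal: it does not contain `F` and has the largest number of edges. -/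
def FExtremal {n : ℕ} {W : Type} (F : SimpleGraph W) (H : SimpleGraph (Fin n)) : Prop :=
  FreeOf F H ∧ ∀ H' : SimpleGraph (Fin n), FreeOf F H' → H'.edgeSet.ncard ≤ H.edgeSet.ncard

/-- Property (P). -/
def PropertyP {W : Type} (F : SimpleGraph W) : Prop :=
  ∃ A : W → W → Prop, IsOrientation F A ∧
    ∀ N : ℕ, ∃ n ≥ N, ∃ H : SimpleGraph (Fin n), OExtremal A H ∧ ¬ FExtremal F H

variable {V W : Type}

theorem contains_iff {F : SimpleGraph W} (hF : ∀ a b c, F.Adj a b → F.Adj a c → b = c) {A : W → W → Prop}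
    (hA : IsOrientation F A) {H : SimpleGraph V} {D : V → V → Prop} (hD : IsOrientation H D) :
    Contains D A ↔ ¬ FreeOf F H := by
  classical
  unfold FreeOf
  rw [not_not]
  have hAF : ∀ a b, F.Adj a b → A a b ∨ A b a := fun a b h => by
    by_cases hab : A a b
    · exact Or.inl hab
    · exact Or.inr ((hA.2 b a h.symm).2 hab)
  constructor
  · rintro ⟨f, hf, h⟩
    refine ⟨f, hf, fun a b hab => ?_⟩
    rcases hAF a b hab with h1 | h1
    · exact hD.1 _ _ (h a b h1)
    · exact (hD.1 _ _ (h b a h1)).symm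
  · rintro ⟨f, hf, h⟩
    -- swap the images of the ends of the edges with the wrong direction
    let bad : W → W → Prop := fun a b => (A a b ∧ D (f b) (f a)) ∨ (A b a ∧ D (f a) (f b))
    have hbad : ∀ a b, bad a b → F.Adj a b := by
      rintro a b (h1 | h1)
      · exact hA.1 _ _ h1.1
      · exact (hA.1 _ _ h1.1).symm
    have hsymm : ∀ a b, bad a b → bad b a := by
      rintro a b (h1 | h1)
      · exact Or.inr h1
      · exact Or.inl h1
    let g : W → W := fun a => if hh : ∃ b, bad a b then hh.choose else a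
    have hg1 : ∀ a b, bad a b → g a = b := by
      intro a b hab
      have hh : ∃ b, bad a b := ⟨b, hab⟩
      have h2 : g a = hh.choose := dif_pos hh
      rw [h2]
      exact hF a _ _ (hbad _ _ hh.choose_spec) (hbad _ _ hab)
    have hg2 : ∀ a, (¬ ∃ b, bad a b) → g a = a := fun a hh => dif_neg hh
    have hgg : ∀ a, g (g a) = a := by
      intro a
      by_cases hh : ∃ b, bad a b
      · obtain ⟨b, hb⟩ := hh
        rw [hg1 a b hb, hg1 b a (hsymm _ _ hb)]
      · rw [hg2 a hh, hg2 a hh]
    refine ⟨fun a => f (g a), fun a b hab => ?_, fun a b hab => ?_⟩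
    · have := congrArg g (hf hab)
      rwa [hgg, hgg] at this
    · have hadj := h a b (hA.1 _ _ hab)
      show D (f (g a)) (f (g b))
      by_cases hd : D (f a) (f b)
      · have hna : ¬ ∃ c, bad a c := by
          rintro ⟨c, hc⟩
          have hcb : c = b := hF a c b (hbad _ _ hc) (hA.1 _ _ hab)
          subst hcb
          rcases hc with h1 | h1
          · exact (hD.2 _ _ hadj).1 hd h1.2
          · exact (hA.2 _ _ (hA.1 _ _ hab)).1 hab h1.1
        have hnb : ¬ ∃ c, bad b c := by
          rintro ⟨c, hc⟩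
          have hca : c = a := hF b c a (hbad _ _ hc) (hA.1 _ _ hab).symm
          subst hca
          exact hna ⟨b, hsymm _ _ hc⟩
        rw [hg2 a hna, hg2 b hnb]
        exact hd
      · have hd' : D (f b) (f a) := (hD.2 _ _ hadj.symm).2 hd
        have hb : bad a b := Or.inl ⟨hab, hd'⟩
        rw [hg1 a b hb, hg1 b a (hsymm _ _ hb)]
        exact hd'

/-- the pairs `u < v` of adjacent vertices -/
noncomputable def pairs {n : ℕ} (H : SimpleGraph (Fin n)) : Finset (Fin n × Fin n) := by
  classical
  exact univ.filter fun p => p.1 < p.2 ∧ H.Adj p.1 p.2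

theorem mem_pairs {n : ℕ} {H : SimpleGraph (Fin n)} {p : Fin n × Fin n} :
    p ∈ pairs H ↔ p.1 < p.2 ∧ H.Adj p.1 p.2 := by
  classical
  unfold pairs
  simp

theorem card_edges {n : ℕ} (H : SimpleGraph (Fin n)) : H.edgeSet.ncard = #(pairs H) := by
  classical
  rw [← Set.ncard_coe_finset]
  symm
  refine Set.ncard_congr (fun p _ => s(p.1, p.2)) ?_ ?_ ?_
  · intro p hp
    exact (mem_pairs.1 (mem_coe.1 hp)).2
  · rintro ⟨a, b⟩ ⟨c, d⟩ hp hq h
    have h1 := (mem_pairs.1 (mem_coe.1 hp)).1
    have h2 := (mem_pairs.1 (mem_coe.1 hq)).1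
    rw [Sym2.eq_iff] at h
    rcases h with ⟨h3, h4⟩ | ⟨h3, h4⟩
    · exact Prod.ext h3 h4
    · simp only at h1 h2 h3 h4
      rw [h3, h4] at h1
      exact absurd h1 (lt_asymm h2)
  · intro e he
    induction e using Sym2.ind with
    | _ u v =>
      have hadj : H.Adj u v := he
      rcases lt_or_gt_of_ne hadj.ne with h | h
      · exact ⟨(u, v), mem_coe.2 (mem_pairs.2 ⟨h, hadj⟩), rfl⟩
      · exact ⟨(v, u), mem_coe.2 (mem_pairs.2 ⟨h, hadj.symm⟩), Sym2.eq_swap⟩

/-- the pairs `u < v` with an arc from `u` to `v` -/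
noncomputable def sel {n : ℕ} (D : Fin n → Fin n → Prop) : Finset (Fin n × Fin n) := by
  classical
  exact univ.filter fun p => p.1 < p.2 ∧ D p.1 p.2

theorem mem_sel {n : ℕ} {D : Fin n → Fin n → Prop} {p : Fin n × Fin n} : p ∈ sel D ↔ p.1 < p.2 ∧ D p.1 p.2 := by
  classical
  unfold sel
  simp

theorem card_orientations {n : ℕ} (H : SimpleGraph (Fin n)) :
    {D : Fin n → Fin n → Prop | IsOrientation H D}.ncard = 2 ^ #(pairs H) := by
  classical
  rw [← card_powerset, ← Set.ncard_coe_finset]
  refine Set.ncard_congr (fun D _ => sel D) ?_ ?_ ?_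
  · intro D hD
    rw [mem_coe, mem_powerset]
    intro p hp
    rw [mem_sel] at hp
    exact mem_pairs.2 ⟨hp.1, hD.1 _ _ hp.2⟩
  · intro D D' hD hD' hDD
    have h2 : ∀ u v, u < v → (D u v ↔ D' u v) := by
      intro u v huv
      have := Finset.ext_iff.1 hDD (u, v)
      simpa [mem_sel, huv] using this
    funext u v
    apply propext
    rcases lt_trichotomy u v with huv | huv | huv
    · exact h2 u v huv
    · subst huv
      exact ⟨fun h => (H.irrefl (hD.1 _ _ h)).elim, fun h => (H.irrefl (hD'.1 _ _ h)).elim⟩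
    · by_cases hadj : H.Adj u v
      · rw [hD.2 u v hadj, hD'.2 u v hadj, h2 v u huv]
      · exact ⟨fun h => (hadj (hD.1 _ _ h)).elim, fun h => (hadj (hD'.1 _ _ h)).elim⟩
  · intro S hS
    rw [mem_coe, mem_powerset] at hS
    refine ⟨fun u v => H.Adj u v ∧ ((u < v ∧ (u, v) ∈ S) ∨ (v < u ∧ (v, u) ∉ S)), ⟨fun u v h => h.1, ?_⟩, ?_⟩
    · intro u v hadj
      rcases lt_or_gt_of_ne hadj.ne with h | h
      · simp [hadj, hadj.symm, h, lt_asymm h]
      · simp [hadj, hadj.symm, h, lt_asymm h]
    · ext p
      rw [mem_sel]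
      constructor
      · rintro ⟨h1, -, h2 | h2⟩
        · exact h2.2
        · exact absurd h1 (lt_asymm h2.1)
      · intro hp
        have h1 := mem_pairs.1 (hS hp)
        exact ⟨h1.1, h1.2, Or.inl ⟨h1.1, hp⟩⟩

/-- A graph with at least one edge in which no vertex has two neighbours does not have property (P). -/
theorem result (W : Type) (F : SimpleGraph W) (hF : ∀ a b c, F.Adj a b → F.Adj a c → b = c) (hE : ∃ a b, F.Adj a b) :
    ¬ PropertyP F := by
  rintro ⟨A, hA, hP⟩
  obtain ⟨n, -, H, hH, hnot⟩ := hP 0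
  have hfree : ∀ H' : SimpleGraph (Fin n), FreeOf F H' → count A H' = 2 ^ #(pairs H') := by
    intro H' h'
    rw [← card_orientations]
    unfold count
    congr 1
    ext D
    exact ⟨fun h => h.1, fun h => ⟨h, fun hc => ((contains_iff hF hA h).1 hc) h'⟩⟩
  have hzero : ∀ H' : SimpleGraph (Fin n), ¬ FreeOf F H' → count A H' = 0 := by
    intro H' h'
    unfold count
    have : {D : Fin n → Fin n → Prop | IsOrientation H' D ∧ ¬ Contains D A} = ∅ := by
      ext D
      exact ⟨fun h => h.2 ((contains_iff hF hA h.1).2 h'), fun h => h.elim⟩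
    rw [this, Set.ncard_empty]
  have hbot : FreeOf F (⊥ : SimpleGraph (Fin n)) := by
    rintro ⟨f, -, h⟩
    obtain ⟨a, b, hab⟩ := hE
    exact (h a b hab).elim
  have hHfree : FreeOf F H := by
    by_contra hcon
    have h1 := hH ⊥
    rw [hzero H hcon, hfree ⊥ hbot] at h1
    exact absurd h1 (by simp)
  apply hnot
  refine ⟨hHfree, fun H' h' => ?_⟩
  have h1 := hH H'
  rw [hfree H' h', hfree H hHfree] at h1
  rw [card_edges, card_edges]
  exact (Nat.pow_le_pow_iff_right (by norm_num)).1 h1

end Pool.Agent.Results.MP_0a9719_co.Matchings
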