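import Mathlib

set_option autoImplicit false

/-!
# All stars with at least two leaves have property (P)

Let `K_{1,k}`, `k ≥ 2`, be oriented from the centre to the leaves. A graph with `n` vertices without `K_{1,k}` has
at most `2 ^ (n (k - 1) / 2)` orientations. For `k ≥ 3` the union of copies of `K_{k,k}`, and for `k = 2` the union of
paths with three vertices, have more orientations without a vertex of outdegree at least `k`.
-/

namespace Pool.Agent.Results.MP_0a9719_co.Stars

open Finset

/-- `D` is an orientation of the graph `H`. -/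
def IsOrientation {V : Type} (H : SimpleGraph V) (D : V → V → Prop) : Prop :=
  (∀ u v, D u v → H.Adj u v) ∧ ∀ u v, H.Adj u v → (D u v ↔ ¬ D v u)

/-- The oriented graph `D` contains a copy of the oriented graph `A`. -/
def Contains {V W : Type} (D : V → V → Prop) (A : W → W → Prop) : Prop :=
  ∃ f : W → V, Function.Injective f ∧ ∀ a b, A a b → D (f a) (f b)

/-- The number of the orientations of `H` that do not contain `A`. -/
noncomputable def count {V W : Type} (A : W → W → Prop) (H : SimpleGraph V) : ℕ :=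
  {D : V → V → Prop | IsOrientation H D ∧ ¬ Contains D A}.ncard

/-- `H` is `A`-extremal: it has the largest number of orientations without `A`. -/
def OExtremal {n : ℕ} {W : Type} (A : W → W → Prop) (H : SimpleGraph (Fin n)) : Prop :=
  ∀ H' : SimpleGraph (Fin n), count A H' ≤ count A H

/-- `H` does not contain `F`. -/
def FreeOf {V W : Type} (F : SimpleGraph W) (H : SimpleGraph V) : Prop :=
  ¬ ∃ f : W → V, Function.Injective f ∧ ∀ a b, F.Adj a b → H.Adj (f a) (f b)

/-- `H` is `F`-extremal: it does not contain `F` and has the largest number of edges. -/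
def FExtremal {n : ℕ} {W : Type} (F : SimpleGraph W) (H : SimpleGraph (Fin n)) : Prop :=
  FreeOf F H ∧ ∀ H' : SimpleGraph (Fin n), FreeOf F H' → H'.edgeSet.ncard ≤ H.edgeSet.ncard

/-- Property (P). -/
def PropertyP {W : Type} (F : SimpleGraph W) : Prop :=
  ∃ A : W → W → Prop, IsOrientation F A ∧
    ∀ N : ℕ, ∃ n ≥ N, ∃ H : SimpleGraph (Fin n), OExtremal A H ∧ ¬ FExtremal F H

/-- the orientation of the star from the centre to the leaves -/
def Out (k : ℕ) : Unit ⊕ Fin k → Unit ⊕ Fin k → Prop
  | .inl _, .inr _ => True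
  | _, _ => False

theorem out_orientation (k : ℕ) : IsOrientation (completeBipartiteGraph Unit (Fin k)) (Out k) := by
  constructor
  · rintro (u | u) (v | v) h
    · exact h.elim
    · simp
    · exact h.elim
    · exact h.elim
  · rintro (u | u) (v | v) h
    · simp at h
    · exact ⟨fun _ h' => h', fun _ => trivial⟩
    · exact ⟨fun h' => h'.elim, fun h' => (h' trivial).elim⟩
    · simp at h

theorem not_contains {V : Type} {D : V → V → Prop} {k : ℕ} (h : ∀ u, ∀ g : Fin k → V, Function.Injective g →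
    ¬ ∀ i, D u (g i)) : ¬ Contains D (Out k) := by
  rintro ⟨f, hf, h'⟩
  exact h (f (.inl ())) (fun i => f (.inr i)) (fun i j hij => Sum.inr_injective (hf hij)) fun i => h' _ _ trivial

theorem degree_le {n k : ℕ} (hk : 1 ≤ k) (H : SimpleGraph (Fin n)) [DecidableRel H.Adj]
    (h : FreeOf (completeBipartiteGraph Unit (Fin k)) H) (u : Fin n) : #(univ.filter fun v => H.Adj u v) ≤ k - 1 := by
  by_contra hcon
  push Not at hcon
  apply h
  have h1 : Fintype.card (Fin k) ≤ Fintype.card ↥(univ.filter fun v => H.Adj u v) := by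
    rw [Fintype.card_fin, Fintype.card_coe]
    omega
  obtain ⟨g⟩ := Function.Embedding.nonempty_of_card_le h1
  have hg : ∀ i, H.Adj u (g i) := fun i => (mem_filter.1 (g i).2).2
  refine ⟨fun x => Sum.elim (fun _ => u) (fun i => (g i : Fin n)) x, ?_, ?_⟩
  · rintro (x | x) (y | y) hxy
    · rfl
    · exact ((hg y).ne hxy).elim
    · exact ((hg x).ne hxy.symm).elim
    · exact congrArg Sum.inr (g.injective (Subtype.ext hxy))
  · rintro (x | x) (y | y) hxy
    · simp at hxy
    · exact hg y
    · exact (hg x).symm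
    · simp at hxy

theorem count_le {n k : ℕ} (hk : 1 ≤ k) (H : SimpleGraph (Fin n)) {W : Type} (A : W → W → Prop)
    (h : FreeOf (completeBipartiteGraph Unit (Fin k)) H) : count A H ^ 2 ≤ 2 ^ (n * (k - 1)) := by
  classical
  obtain ⟨E, hE⟩ : ∃ E : Finset (Fin n × Fin n), E = univ.filter fun p => p.1 < p.2 ∧ H.Adj p.1 p.2 := ⟨_, rfl⟩
  have h1 : count A H ≤ 2 ^ #E := by
    rw [← card_powerset, ← Set.ncard_coe_finset]
    refine Set.ncard_le_ncard_of_injOn (fun D : Fin n → Fin n → Prop => univ.filter fun p : Fin n × Fin n =>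
      p.1 < p.2 ∧ D p.1 p.2) ?_ ?_ (Set.toFinite _)
    · rintro D ⟨hD, -⟩
      rw [mem_coe, mem_powerset]
      intro p hp
      rw [mem_filter] at hp
      rw [hE, mem_filter]
      exact ⟨mem_univ _, hp.2.1, hD.1 _ _ hp.2.2⟩
    · rintro D ⟨hD, -⟩ D' ⟨hD', -⟩ hDD
      have h2 : ∀ u v, u < v → (D u v ↔ D' u v) := by
        intro u v huv
        have := Finset.ext_iff.1 hDD (u, v)
        simpa [huv] using this
      funext u v
      apply propext
      rcases lt_trichotomy u v with huv | huv | huv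
      · exact h2 u v huv
      · subst huv
        exact ⟨fun h => (H.irrefl (hD.1 _ _ h)).elim, fun h => (H.irrefl (hD'.1 _ _ h)).elim⟩
      · by_cases hadj : H.Adj u v
        · rw [hD.2 u v hadj, hD'.2 u v hadj, h2 v u huv]
        · exact ⟨fun h => (hadj (hD.1 _ _ h)).elim, fun h => (hadj (hD'.1 _ _ h)).elim⟩
  have h2 : #E + #E ≤ n * (k - 1) := by
    have h3 : #E = #(univ.filter fun p : Fin n × Fin n => p.2 < p.1 ∧ H.Adj p.1 p.2) := by
      rw [hE]
      refine card_bij (fun p _ => (p.2, p.1)) ?_ ?_ ?_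
      · rintro ⟨u, v⟩ hp
        rw [mem_filter] at hp ⊢
        exact ⟨mem_univ _, hp.2.1, hp.2.2.symm⟩
      · rintro ⟨u, v⟩ _ ⟨u', v'⟩ _ hp
        simp only [Prod.mk.injEq] at hp ⊢
        exact ⟨hp.2, hp.1⟩
      · rintro ⟨u, v⟩ hp
        rw [mem_filter] at hp
        exact ⟨(v, u), mem_filter.2 ⟨mem_univ _, hp.2.1, hp.2.2.symm⟩, rfl⟩
    calc #E + #E = #(E ∪ univ.filter fun p : Fin n × Fin n => p.2 < p.1 ∧ H.Adj p.1 p.2) := by
          rw [card_union_of_disjoint, ← h3]
          rw [disjoint_left]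
          intro p hp hp'
          rw [hE, mem_filter] at hp
          rw [mem_filter] at hp'
          exact lt_asymm hp.2.1 hp'.2.1
      _ ≤ #((univ : Finset (Fin n)).biUnion fun u => (univ.filter fun v => H.Adj u v).image fun v => (u, v)) := by
          refine card_le_card fun p hp => ?_
          have hp' : H.Adj p.1 p.2 := by
            rw [mem_union, hE, mem_filter, mem_filter] at hp
            rcases hp with hp | hp
            · exact hp.2.2
            · exact hp.2.2
          rw [mem_biUnion]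
          exact ⟨p.1, mem_univ _, mem_image.2 ⟨p.2, mem_filter.2 ⟨mem_univ _, hp'⟩, rfl⟩⟩
      _ ≤ #(univ : Finset (Fin n)) * (k - 1) := card_biUnion_le_card_mul _ _ _ fun u _ =>
          card_image_le.trans (degree_le hk H h u)
      _ = n * (k - 1) := by rw [card_univ, Fintype.card_fin]
  calc count A H ^ 2 ≤ (2 ^ #E) ^ 2 := Nat.pow_le_pow_left h1 2
    _ = 2 ^ (#E + #E) := by rw [← pow_mul, mul_two]
    _ ≤ _ := Nat.pow_le_pow_right (by norm_num) h2

/-- A gadget: many orientations of one graph without vertices of outdegree at least `k`. -/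
theorem of_gadget {k : ℕ} (hk : 1 ≤ k) {G Ω : Type} [Fintype G] [Nonempty G] [Fintype Ω] (G0 : SimpleGraph G)
    (D : Ω → G → G → Prop) (hD : ∀ ω, IsOrientation G0 (D ω)) (hinj : Function.Injective D)
    (hfree : ∀ ω u, ∀ g : Fin k → G, Function.Injective g → ¬ ∀ i, D ω u (g i))
    (hcard : 2 ^ (Fintype.card G * (k - 1)) < Fintype.card Ω ^ 2) :
    PropertyP (completeBipartiteGraph Unit (Fin k)) := by
  classical
  refine ⟨Out k, out_orientation k, fun N => ?_⟩
  obtain ⟨q, hq⟩ : ∃ q, q = N + 1 := ⟨_, rfl⟩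
  obtain ⟨n, hn⟩ : ∃ n, n = Fintype.card (Fin q × G) := ⟨_, rfl⟩
  have hn' : n = q * Fintype.card G := by rw [hn, Fintype.card_prod, Fintype.card_fin]
  have hG : 1 ≤ Fintype.card G := Fintype.card_pos
  obtain ⟨e⟩ : Nonempty (Fin n ≃ Fin q × G) := ⟨(Fintype.equivFinOfCardEq hn.symm).symm⟩
  let H0 : SimpleGraph (Fin n) :=
    { Adj := fun u v => (e u).1 = (e v).1 ∧ G0.Adj (e u).2 (e v).2
      symm := ⟨fun u v h => ⟨h.1.symm, h.2.symm⟩⟩
      loopless := ⟨fun u h => G0.irrefl h.2⟩ }
  have hH0 : ∀ u v, H0.Adj u v ↔ (e u).1 = (e v).1 ∧ G0.Adj (e u).2 (e v).2 := fun u v => Iff.rfl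
  let Φ : (Fin q → Ω) → Fin n → Fin n → Prop := fun ω u v => (e u).1 = (e v).1 ∧ D (ω (e u).1) (e u).2 (e v).2
  have hΦ : Function.Injective Φ := by
    intro ω ω' h
    funext a
    apply hinj
    funext x y
    have h1 := congrFun (congrFun h (e.symm (a, x))) (e.symm (a, y))
    simpa [Φ] using h1
  have hlow : Fintype.card Ω ^ q ≤ count (Out k) H0 := by
    have h1 : Fintype.card Ω ^ q = (Set.range Φ).ncard := by
      rw [← Set.image_univ, Set.ncard_image_of_injective _ hΦ, Set.ncard_univ, Nat.card_eq_fintype_card,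
        Fintype.card_fun, Fintype.card_fin]
    rw [h1]
    refine Set.ncard_le_ncard ?_ (Set.toFinite _)
    rintro _ ⟨ω, rfl⟩
    refine ⟨⟨fun u v h => ⟨h.1, (hD _).1 _ _ h.2⟩, fun u v h => ?_⟩, not_contains fun u g hg hall => ?_⟩
    · rw [hH0] at h
      show ((e u).1 = (e v).1 ∧ D (ω (e u).1) (e u).2 (e v).2) ↔ ¬ ((e v).1 = (e u).1 ∧ D (ω (e v).1) (e v).2 (e u).2)
      rw [h.1, (hD (ω (e v).1)).2 _ _ h.2]
      simp
    · refine hfree (ω (e u).1) (e u).2 (fun i => (e (g i)).2) (fun i j hij => hg (e.injective (Prod.ext ?_ hij)))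
        fun i => (hall i).2
      exact ((hall i).1.symm.trans (hall j).1)
  obtain ⟨H, hH⟩ := Finite.exists_max (fun H : SimpleGraph (Fin n) => count (Out k) H)
  refine ⟨n, ?_, H, hH, fun hF => ?_⟩
  · rw [hn', hq]; nlinarith
  · have h1 := count_le hk H (Out k) hF.1
    have h2 : (Fintype.card Ω ^ q) ^ 2 ≤ count (Out k) H ^ 2 := Nat.pow_le_pow_left (hlow.trans (hH H0)) 2
    have h3 : 2 ^ (n * (k - 1)) < (Fintype.card Ω ^ q) ^ 2 := by
      rw [hn', show q * Fintype.card G * (k - 1) = Fintype.card G * (k - 1) * q by ring, pow_mul,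
        ← pow_mul (Fintype.card Ω) q 2, mul_comm q 2, pow_mul (Fintype.card Ω) 2 q]
      exact Nat.pow_lt_pow_left hcard (by omega)
    omega

/-! ### the path with three vertices -/

/-- three orientations of the path with three vertices -/
def arcs : Fin 3 → List (Fin 3 × Fin 3)
  | 0 => [(0, 1), (1, 2)]
  | 1 => [(0, 1), (2, 1)]
  | 2 => [(2, 1), (1, 0)]

/-- the path with three vertices -/
def path3 : SimpleGraph (Fin 3) where
  Adj x y := (x = 1 ∧ y ≠ 1) ∨ (y = 1 ∧ x ≠ 1)
  symm := ⟨by decide⟩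
  loopless := ⟨by decide⟩

theorem star_two : PropertyP (completeBipartiteGraph Unit (Fin 2)) := by
  refine of_gadget (by norm_num) path3 (fun ω x y => (x, y) ∈ arcs ω) (fun ω => ⟨?_, ?_⟩) ?_ ?_ (by simp)
  · show ∀ u v, (u, v) ∈ arcs ω → (u = 1 ∧ v ≠ 1) ∨ (v = 1 ∧ u ≠ 1)
    revert ω; decide
  · show ∀ u v, ((u = 1 ∧ v ≠ 1) ∨ (v = 1 ∧ u ≠ 1)) → ((u, v) ∈ arcs ω ↔ ¬ (v, u) ∈ arcs ω)
    revert ω; decide
  · intro ω ω' h
    have h' : ∀ x y, (x, y) ∈ arcs ω ↔ (x, y) ∈ arcs ω' := fun x y => by
      have := congrFun (congrFun h x) y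
      exact iff_of_eq this
    clear h
    revert ω ω'
    decide
  · intro ω u g hg hall
    have key : ∀ ω u a b : Fin 3, a ≠ b → (u, a) ∈ arcs ω → (u, b) ∈ arcs ω → False := by decide
    exact key ω u (g 0) (g 1) (fun h => absurd (hg h) (by decide)) (hall 0) (hall 1)

/-! ### the complete bipartite graphs -/

/-- the matrices without row of ones and column of zeros -/
abbrev Mat (k : ℕ) : Type :=
  {m : Fin k → Fin k → Bool // (∀ i, ∃ j, m i j = false) ∧ ∀ j, ∃ i, m i j = true}

/-- the orientation given by a matrix -/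
def ofMat {k : ℕ} (m : Mat k) : Fin k ⊕ Fin k → Fin k ⊕ Fin k → Prop
  | .inl i, .inr j => m.1 i j = true
  | .inr j, .inl i => m.1 i j = false
  | _, _ => False

theorem two_pow_ge {k : ℕ} (hk : 3 ≤ k) : 2 * k + 2 ≤ 2 ^ k := by
  induction k, hk using Nat.le_induction with
  | base => norm_num
  | succ k hk ih => rw [pow_succ]; omega

theorem card_mat {k : ℕ} (hk : 3 ≤ k) : 2 * (2 ^ k) ^ (k - 1) ≤ Fintype.card (Mat k) := by
  classical
  have hne : ∀ i : Fin k, Fintype.card {a : Fin k // a ≠ i} = k - 1 := by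
    intro i
    have := Fintype.card_subtype_compl fun a : Fin k => a = i
    rw [Fintype.card_fin, Fintype.card_subtype_eq] at this
    exact this
  have hcod : ∀ i : Fin k, Fintype.card ({a : Fin k // a ≠ i} → Fin k → Bool) = (2 ^ k) ^ (k - 1) := by
    intro i
    rw [Fintype.card_fun, hne, Fintype.card_fun, Fintype.card_bool, Fintype.card_fin]
  have hR : ∀ i : Fin k, #(univ.filter fun m : Fin k → Fin k → Bool => ∀ j, m i j = true) ≤ (2 ^ k) ^ (k - 1) := by
    intro i
    rw [← hcod i, ← card_univ]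
    refine card_le_card_of_injOn (fun m => fun a : {a : Fin k // a ≠ i} => m a) (fun _ _ => mem_coe.2 (mem_univ _)) ?_
    intro m hm m' hm' h
    rw [mem_coe, mem_filter] at hm hm'
    funext a
    by_cases ha : a = i
    · subst ha
      funext j
      rw [hm.2 j, hm'.2 j]
    · exact congrFun h ⟨a, ha⟩
  have hC : ∀ j : Fin k, #(univ.filter fun m : Fin k → Fin k → Bool => ∀ i, m i j = false) ≤ (2 ^ k) ^ (k - 1) := by
    intro j
    rw [← hcod j, ← card_univ]
    refine card_le_card_of_injOn (fun m => fun (b : {b : Fin k // b ≠ j}) i => m i b)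
      (fun _ _ => mem_coe.2 (mem_univ _)) ?_
    intro m hm m' hm' h
    rw [mem_coe, mem_filter] at hm hm'
    funext i b
    by_cases hb : b = j
    · subst hb
      rw [hm.2 i, hm'.2 i]
    · exact congrFun (congrFun h ⟨b, hb⟩) i
  have htot : (2 ^ k) ^ k ≤ Fintype.card (Mat k) + (k * (2 ^ k) ^ (k - 1) + k * (2 ^ k) ^ (k - 1)) := by
    have h1 : (2 ^ k) ^ k = #(univ : Finset (Fin k → Fin k → Bool)) := by
      rw [card_univ, Fintype.card_fun, Fintype.card_fun, Fintype.card_bool, Fintype.card_fin]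
    have h2 : (univ : Finset (Fin k → Fin k → Bool)) ⊆
        (univ.filter fun m => (∀ i, ∃ j, m i j = false) ∧ ∀ j, ∃ i, m i j = true) ∪
        ((univ.biUnion fun i => univ.filter fun m => ∀ j, m i j = true) ∪
        (univ.biUnion fun j => univ.filter fun m => ∀ i, m i j = false)) := by
      intro m _
      rw [mem_union, mem_union, mem_biUnion, mem_biUnion, mem_filter]
      by_cases h3 : ∀ i, ∃ j, m i j = false
      · by_cases h4 : ∀ j, ∃ i, m i j = true
        · exact Or.inl ⟨mem_univ _, h3, h4⟩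
        · push Not at h4
          obtain ⟨j, hj⟩ := h4
          exact Or.inr (Or.inr ⟨j, mem_univ _, mem_filter.2 ⟨mem_univ _, fun i => by simpa using hj i⟩⟩)
      · push Not at h3
        obtain ⟨i, hi⟩ := h3
        exact Or.inr (Or.inl ⟨i, mem_univ _, mem_filter.2 ⟨mem_univ _, fun j => by simpa using hi j⟩⟩)
    have h5 := (card_le_card h2).trans ((card_union_le _ _).trans (Nat.add_le_add_left (card_union_le _ _) _))
    have h6 := card_biUnion_le_card_mul (univ : Finset (Fin k)) (fun i => univ.filter fun m : Fin k → Fin k → Bool =>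
      ∀ j, m i j = true) _ fun i _ => hR i
    have h7 := card_biUnion_le_card_mul (univ : Finset (Fin k)) (fun j => univ.filter fun m : Fin k → Fin k → Bool =>
      ∀ i, m i j = false) _ fun j _ => hC j
    rw [card_univ, Fintype.card_fin] at h6 h7
    rw [h1, Fintype.card_subtype]
    omega
  have hk2 : 2 * k + 2 ≤ 2 ^ k := two_pow_ge hk
  obtain ⟨c, rfl⟩ : ∃ c, k = c + 1 := ⟨k - 1, by omega⟩
  rw [Nat.add_sub_cancel] at htot ⊢
  rw [pow_succ (2 ^ (c + 1)) c] at htot
  have hpos : 0 < (2 ^ (c + 1)) ^ c := by positivity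
  nlinarith [Nat.mul_le_mul_left ((2 ^ (c + 1)) ^ c) hk2]

theorem star_three {k : ℕ} (hk : 3 ≤ k) : PropertyP (completeBipartiteGraph Unit (Fin k)) := by
  have : NeZero k := ⟨by omega⟩
  refine of_gadget (by omega) (completeBipartiteGraph (Fin k) (Fin k)) (ofMat (k := k)) (fun m => ⟨?_, ?_⟩) ?_ ?_ ?_
  · rintro (u | u) (v | v) h
    · exact h.elim
    · simp
    · simp
    · exact h.elim
  · rintro (u | u) (v | v) h
    · simp at h
    · show m.1 u v = true ↔ ¬ m.1 u v = false
      simp
    · show m.1 v u = false ↔ ¬ m.1 v u = true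
      simp
    · simp at h
  · intro m m' h
    apply Subtype.ext
    funext i j
    have h1 : (m.1 i j = true) = (m'.1 i j = true) := congrFun (congrFun h (.inl i)) (.inr j)
    rw [Bool.eq_iff_iff]
    exact iff_of_eq h1
  · rintro m (u | u) g hg hall
    · have hex : ∀ c, ∃ j, g c = .inr j ∧ m.1 u j = true := by
        intro c
        have := hall c
        rcases hgc : g c with j | j
        · rw [hgc] at this; exact this.elim
        · rw [hgc] at this; exact ⟨j, rfl, this⟩
      choose j hj hj' using hex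
      have hinj : Function.Injective j := fun a b hab => hg (by rw [hj, hj, hab])
      obtain ⟨j0, hj0⟩ := m.2.1 u
      obtain ⟨c, hc⟩ := (Finite.injective_iff_surjective.1 hinj) j0
      have := hj' c
      rw [hc, hj0] at this
      exact absurd this (by simp)
    · have hex : ∀ c, ∃ i, g c = .inl i ∧ m.1 i u = false := by
        intro c
        have := hall c
        rcases hgc : g c with j | j
        · rw [hgc] at this; exact ⟨j, rfl, this⟩
        · rw [hgc] at this; exact this.elim
      choose j hj hj' using hex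
      have hinj : Function.Injective j := fun a b hab => hg (by rw [hj, hj, hab])
      obtain ⟨j0, hj0⟩ := m.2.2 u
      obtain ⟨c, hc⟩ := (Finite.injective_iff_surjective.1 hinj) j0
      have := hj' c
      rw [hc, hj0] at this
      exact absurd this (by simp)
  · have h1 := card_mat hk
    have h2 : 2 ^ (Fintype.card (Fin k ⊕ Fin k) * (k - 1)) = ((2 ^ k) ^ (k - 1)) ^ 2 := by
      rw [Fintype.card_sum, Fintype.card_fin, ← pow_mul, ← pow_mul]
      congr 1
      ring
    rw [h2]
    have h3 : 0 < (2 ^ k) ^ (k - 1) := by positivity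
    exact Nat.pow_lt_pow_left (by omega) (by norm_num)

/-- All stars `K_{1,k}` with `k ≥ 2` leaves have property (P). -/
theorem result (k : ℕ) (hk : 2 ≤ k) : PropertyP (completeBipartiteGraph Unit (Fin k)) := by
  rcases hk.lt_or_eq with h | rfl
  · exact star_three h
  · exact star_two

end Pool.Agent.Results.MP_0a9719_co.Stars
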